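import Pool.Agent.W783.Perc.Stmts

set_option autoImplicit false

open Pool.Agent.W783.PC

namespace Pool.Agent.W216.PC

/-- `t -> t^(2-s)/(2-s)`: one step of telescoping. -/
lemma tele (s : ℝ) (h1 : 1 < s) (h2 : s < 2) (t : ℕ) :
    ((t : ℝ) + 1) ^ (1 - s) + (t : ℝ) ^ (2 - s) / (2 - s) ≤ ((t : ℝ) + 1) ^ (2 - s) / (2 - s) := by
  have hp : 0 < 2 - s := by linarith
  have ht : (0 : ℝ) ≤ t := Nat.cast_nonneg t
  have ht1 : (0 : ℝ) < (t : ℝ) + 1 := by linarith
  have hb : (1 + (-(1 / ((t : ℝ) + 1)))) ^ (2 - s) ≤ 1 + (2 - s) * (-(1 / ((t : ℝ) + 1))) := by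
    apply rpow_one_add_le_one_add_mul_self
    · have : 1 / ((t : ℝ) + 1) ≤ 1 := by
        rw [div_le_one ht1]; linarith
      linarith
    · linarith
    · linarith
  have he : (t : ℝ) = ((t : ℝ) + 1) * (1 + (-(1 / ((t : ℝ) + 1)))) := by
    field_simp; ring
  have hnn : 0 ≤ 1 + (-(1 / ((t : ℝ) + 1))) := by
    have : 1 / ((t : ℝ) + 1) ≤ 1 := by
      rw [div_le_one ht1]; linarith
    linarith
  have h3 : (t : ℝ) ^ (2 - s) ≤ ((t : ℝ) + 1) ^ (2 - s) * (1 + (2 - s) * (-(1 / ((t : ℝ) + 1)))) := by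
    calc (t : ℝ) ^ (2 - s) = (((t : ℝ) + 1) * (1 + (-(1 / ((t : ℝ) + 1))))) ^ (2 - s) := by
          rw [← he]
      _ = ((t : ℝ) + 1) ^ (2 - s) * (1 + (-(1 / ((t : ℝ) + 1)))) ^ (2 - s) :=
          Real.mul_rpow ht1.le hnn
      _ ≤ _ := by gcongr
  have h4 : ((t : ℝ) + 1) ^ (2 - s) = ((t : ℝ) + 1) ^ (1 - s) * ((t : ℝ) + 1) := by
    rw [show 2 - s = (1 - s) + 1 by ring, Real.rpow_add_one ht1.ne']
  have h5 : ((t : ℝ) + 1) ^ (2 - s) * (1 + (2 - s) * (-(1 / ((t : ℝ) + 1)))) =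
      ((t : ℝ) + 1) ^ (2 - s) - (2 - s) * ((t : ℝ) + 1) ^ (1 - s) := by
    rw [h4]; field_simp; ring
  rw [h5] at h3
  rw [le_div_iff₀ hp, add_mul, div_mul_cancel₀ _ hp.ne']
  linarith

/-- The summand of the second part of the exit cost. -/
noncomputable def gg (s : ℝ) (a N' : ℕ) : ℝ :=
  if a ≤ N' then (((N' - a : ℕ) : ℝ) + 1) ^ (1 - s) else 0

lemma gg_nonneg (s : ℝ) (a N' : ℕ) : 0 ≤ gg s a N' := by
  unfold gg; split_ifs
  · positivity
  · exact le_rfl

lemma sum_gg (s : ℝ) (h1 : 1 < s) (h2 : s < 2) (a L k : ℕ) :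
    ∑ j ∈ Finset.range k, gg s a (L + 1 + j) ≤
      ((min k (L + k + 1 - a) : ℕ) : ℝ) ^ (2 - s) / (2 - s) := by
  have hp : 0 < 2 - s := by linarith
  induction k with
  | zero =>
    simp only [Finset.range_zero, Finset.sum_empty]
    positivity
  | succ k ih =>
    rw [Finset.sum_range_succ]
    by_cases ha : a ≤ L + 1 + k
    · have hc : min (k + 1) (L + (k + 1) + 1 - a) = min k (L + k + 1 - a) + 1 := by omega
      have hle : gg s a (L + 1 + k) ≤ (((min k (L + k + 1 - a) : ℕ) : ℝ) + 1) ^ (1 - s) := by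
        unfold gg
        rw [if_pos ha]
        apply Real.rpow_le_rpow_of_nonpos
        · positivity
        · have : min k (L + k + 1 - a) ≤ L + 1 + k - a := by omega
          have : ((min k (L + k + 1 - a) : ℕ) : ℝ) ≤ ((L + 1 + k - a : ℕ) : ℝ) := by
            exact_mod_cast this
          linarith
        · linarith
      have ht := tele s h1 h2 (min k (L + k + 1 - a))
      rw [hc]
      push_cast at ht ih hle ⊢
      linarith
    · have hc : min (k + 1) (L + (k + 1) + 1 - a) = min k (L + k + 1 - a) := by omega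
      have hz : gg s a (L + 1 + k) = 0 := by
        unfold gg; rw [if_neg ha]
      rw [hc, hz, add_zero]
      exact ih

lemma sum_gg_Ioc (s : ℝ) (h1 : 1 < s) (h2 : s < 2) (a N : ℕ) :
    ∑ N' ∈ Finset.Ioc N (2 * N), gg s a N' ≤ (N : ℝ) ^ (2 - s) / (2 - s) := by
  have hp : 0 < 2 - s := by linarith
  have h : ∑ N' ∈ Finset.Ioc N (2 * N), gg s a N' = ∑ j ∈ Finset.range N, gg s a (N + 1 + j) := by
    have e : Finset.Ioc N (2 * N) = Finset.Ico (N + 1) (2 * N + 1) := by
      ext x; simp only [Finset.mem_Ioc, Finset.mem_Ico]; omega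
    rw [e, Finset.sum_Ico_eq_sum_range]
    congr 2
    omega
  rw [h]
  refine (sum_gg s h1 h2 a N N).trans ?_
  apply div_le_div_of_nonneg_right _ hp.le
  apply Real.rpow_le_rpow (Nat.cast_nonneg _) _ hp.le
  exact_mod_cast min_le_left _ _

theorem s_avg : S_avg := by
  classical
  intro n s h1 h2
  have hp : 0 < 2 - s := by linarith
  refine ⟨n + 1 / (2 - s), by positivity, ?_⟩
  intro N M hN hM K
  -- pointwise bound
  have hpt : ∀ (N' M' : ℕ) (x : V n),
      (if x ∈ (CB N' M' : Set (V n)) then hx s N' M' x else 0) ≤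
        (∑ i, if (x.2 i).natAbs = M' then (1 : ℝ) else 0) + gg s x.1.natAbs N' := by
    intro N' M' x
    have hA : 0 ≤ ∑ i, if (x.2 i).natAbs = M' then (1 : ℝ) else 0 := by
      apply Finset.sum_nonneg
      intro i _
      split_ifs <;> norm_num
    split_ifs with hx1
    · unfold hx gg
      have hx2 : |x.1| ≤ (N' : ℤ) := hx1.1
      have hx3 : x.1.natAbs ≤ N' := by
        rw [Int.abs_eq_natAbs] at hx2
        exact_mod_cast hx2
      rw [if_pos hx3]
      have e : |(x.1 : ℝ)| = ((x.1.natAbs : ℕ) : ℝ) := by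
        rw [← Int.cast_abs, Int.abs_eq_natAbs]
        simp
      rw [e, Nat.cast_sub hx3]
    · exact add_nonneg hA (gg_nonneg _ _ _)
  -- the sum for a fixed vertex
  have hv : ∀ x : V n, ∑ N' ∈ Finset.Ioc N (2 * N), ∑ M' ∈ Finset.Ioc M (2 * M),
      (if x ∈ (CB N' M' : Set (V n)) then hx s N' M' x else 0) ≤
        (n + 1 / (2 - s)) * (N + M * (N : ℝ) ^ (2 - s)) := by
    intro x
    calc ∑ N' ∈ Finset.Ioc N (2 * N), ∑ M' ∈ Finset.Ioc M (2 * M),
      (if x ∈ (CB N' M' : Set (V n)) then hx s N' M' x else 0)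
        ≤ ∑ N' ∈ Finset.Ioc N (2 * N), ∑ M' ∈ Finset.Ioc M (2 * M),
          ((∑ i, if (x.2 i).natAbs = M' then (1 : ℝ) else 0) + gg s x.1.natAbs N') :=
          Finset.sum_le_sum fun N' _ => Finset.sum_le_sum fun M' _ => hpt N' M' x
      _ = ∑ N' ∈ Finset.Ioc N (2 * N), ((∑ i, ∑ M' ∈ Finset.Ioc M (2 * M),
          if (x.2 i).natAbs = M' then (1 : ℝ) else 0) + M * gg s x.1.natAbs N') := by
          apply Finset.sum_congr rfl
          intro N' _
          rw [Finset.sum_add_distrib, Finset.sum_comm]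
          congr 1
          rw [Finset.sum_const, Nat.card_Ioc, nsmul_eq_mul]
          congr 2
          omega
      _ ≤ ∑ N' ∈ Finset.Ioc N (2 * N), ((∑ i : Fin n, (1 : ℝ)) + M * gg s x.1.natAbs N') := by
          apply Finset.sum_le_sum
          intro N' _
          gcongr with i _
          rw [Finset.sum_ite_eq]
          split_ifs <;> norm_num
      _ = N * n + M * ∑ N' ∈ Finset.Ioc N (2 * N), gg s x.1.natAbs N' := by
          rw [Finset.sum_add_distrib, ← Finset.mul_sum]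
          congr 1
          rw [Finset.sum_const, Nat.card_Ioc, nsmul_eq_mul]
          simp only [Finset.sum_const, Finset.card_univ, Fintype.card_fin, nsmul_eq_mul, mul_one]
          congr 2
          omega
      _ ≤ N * n + M * ((N : ℝ) ^ (2 - s) / (2 - s)) := by
          gcongr
          exact sum_gg_Ioc s h1 h2 _ N
      _ ≤ (n + 1 / (2 - s)) * (N + M * (N : ℝ) ^ (2 - s)) := by
          have h3 : 0 ≤ (n : ℝ) * (M * (N : ℝ) ^ (2 - s)) := by positivity
          have h4 : 0 ≤ 1 / (2 - s) * (N : ℝ) := by positivity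
          have h5 : (M : ℝ) * ((N : ℝ) ^ (2 - s) / (2 - s)) =
            1 / (2 - s) * (M * (N : ℝ) ^ (2 - s)) := by ring
          rw [h5]
          nlinarith
  calc ∑ N' ∈ Finset.Ioc N (2 * N), ∑ M' ∈ Finset.Ioc M (2 * M),
      ∑ x ∈ K.filter (fun x => x ∈ (CB N' M' : Set (V n))), hx s N' M' x
      = ∑ N' ∈ Finset.Ioc N (2 * N), ∑ M' ∈ Finset.Ioc M (2 * M),
        ∑ x ∈ K, (if x ∈ (CB N' M' : Set (V n)) then hx s N' M' x else 0) := by
        apply Finset.sum_congr rfl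
        intro N' _
        apply Finset.sum_congr rfl
        intro M' _
        rw [Finset.sum_filter]
    _ = ∑ x ∈ K, ∑ N' ∈ Finset.Ioc N (2 * N), ∑ M' ∈ Finset.Ioc M (2 * M),
        (if x ∈ (CB N' M' : Set (V n)) then hx s N' M' x else 0) := by
        rw [Finset.sum_comm]
        rw [Finset.sum_comm]
        rw [show (∑ N' ∈ Finset.Ioc N (2 * N), ∑ M' ∈ Finset.Ioc M (2 * M),
          ∑ x ∈ K, (if x ∈ (CB N' M' : Set (V n)) then hx s N' M' x else 0)) =
          ∑ N' ∈ Finset.Ioc N (2 * N), ∑ x ∈ K, ∑ M' ∈ Finset.Ioc M (2 * M),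
          (if x ∈ (CB N' M' : Set (V n)) then hx s N' M' x else 0) from
          Finset.sum_congr rfl fun N' _ => Finset.sum_comm]
        rw [Finset.sum_comm]
    _ ≤ ∑ x ∈ K, (n + 1 / (2 - s)) * (N + M * (N : ℝ) ^ (2 - s)) :=
        Finset.sum_le_sum fun x _ => hv x
    _ = (n + 1 / (2 - s)) * K.card * (N + M * (N : ℝ) ^ (2 - s)) := by
        rw [Finset.sum_const, nsmul_eq_mul]; ring

end Pool.Agent.W216.PC
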